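import Pool.Agent.U644.RA.Core

/-!
# Weight-monodromy for rigid-analytic varieties with projective reduction: main theorem
-/

set_option autoImplicit false

open Module TensorProduct

namespace Pool.Agent.U644.RA

universe u v w

open Pool.Agent.Y143 Pool.Agent.Y163.MW Pool.Agent.U644.LT
open Pool.Agent.Y163.MW.Coh (adp_strings kunneth_tot)
open Pool.Agent.U644.MW (P InvariantsBounded IsTest WeightRange tmul_left_cancel)
open Pool.Agent.U644.GI (G G_unit weil_of_pow IsGood H0Vanishes H1Vanishes frob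
  frob_apply F_frob powF_eigen)

variable {Ω : Type w} [Field Ω] [CharZero Ω]

namespace RigidTheory

variable {T : RigidTheory.{u, v, w} Ω} {q : ℕ}

/-- Excess one on `X × Z ^ n` controls all the excesses at most `n + 1` on `X`. -/
lemma G_times [IsAlgClosed Ω] {Z : T.Obj} (hK : T.Known q Z) (X : T.Obj) (n : ℕ)
    (h : G (T.H (T.times X Z n)) q 0 1) :
    ∀ b c : ℕ, b < c → c ≤ n + 1 → G (T.H X) q b c := by
  have hq := hK.one_lt
  obtain ⟨h1, h2⟩ := exists_test hq (hK.pre Z) hK.test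
  obtain ⟨e, he, hf, hf0, hNf⟩ := h2
  have h3 : ∃ y ∈ (T.H Z).tot q (-1), y ≠ 0 ∧ (T.H Z).N y = 0 := ⟨_, hf, hf0, hNf⟩
  suffices H : ∀ b0 c0 : ℕ, G (T.H (T.times X Z n)) q b0 c0 → ∀ b c : ℕ, b0 ≤ b → c0 ≤ c →
      b - b0 ≤ c - c0 → c ≤ n + c0 → G (T.H X) q b c by
    intro b c hbc hc
    exact H 0 1 (by simpa using h) b c (by omega) (by omega) (by omega) (by omega)
  clear h
  induction n with
  | zero =>
    intro b0 c0 h b c hb hc hbc hc'
    obtain rfl : c = c0 := by omega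
    obtain rfl : b = b0 := by omega
    exact h
  | succ n ih =>
    intro b0 c0 h b c hb hc hbc hc'
    obtain ⟨κ, hκ⟩ := hK.kunneth (T.times X Z n) Z
    rcases Nat.lt_or_ge (n + c0) c with h4 | h4
    · rcases Nat.lt_or_ge b0 b with h5 | h5
      · have h6 := G_step hq (hK.pre _) hκ h ⟨e, he, hf, hf0, hNf⟩
        have h7 : G (T.H (T.times X Z n)) q (b0 + 1) ((c0 + 1 : ℕ) : ℤ) := by
          push_cast
          exact h6
        exact ih (b0 + 1) (c0 + 1) h7 b c (by omega) (by omega) (by omega) (by omega)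
      · have h6 := G_unit hq hκ h h3
        have h7 : G (T.H (T.times X Z n)) q b0 ((c0 + 1 : ℕ) : ℤ) := by
          push_cast
          rwa [sub_neg_eq_add] at h6
        exact ih b0 (c0 + 1) h7 b c (by omega) (by omega) (by omega) (by omega)
    · have h6 := G_unit hq hκ h h1
      rw [sub_zero] at h6
      exact ih b0 c0 h6 b c (by omega) (by omega) (by omega) (by omega)

/-- Excess one on `X × Z ^ (dim X - 1)` is enough. -/
lemma pure_of_G [IsAlgClosed Ω] {Z : T.Obj} (hK : T.Known q Z) (X : T.Obj)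
    (h : G (T.H (T.times X Z (T.dim X - 1))) q 0 1) : T.WeightMonodromy q X := by
  have hq := hK.one_lt
  have h1 := G_times hK X _ h
  obtain ⟨B, hB⟩ := hK.poincare X
  refine pure_of_P hq (hK.pre X) ⟨_, B, hB⟩ fun b c hc x hx h0 => ?_
  obtain ⟨c, rfl⟩ : ∃ c' : ℕ, c = c' := ⟨c.toNat, by omega⟩
  rcases Nat.lt_or_ge (T.dim X) c with h2 | h2
  · rw [tot_eq_bot hq (hK.pre X) (hK.range X) (by omega)] at hx
    exact (Submodule.mem_bot Ω).1 hx
  · exact h1 b c (by omega) (by omega) x hx h0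

/-- The vanishing of `H^0` for the products with varieties with potentially good reduction. -/
lemma G_of_H0 [IsAlgClosed Ω] {Z : T.Obj} (hK : T.Known q Z) (Y : T.Obj)
    (h : T.Stably q (T.NoInvariants q) Y) : G (T.H Y) q 0 1 := by
  have hq := hK.one_lt
  by_contra hcon
  obtain ⟨m, α, x, hx, hx0, hNx, hFx, hw⟩ := exists_exc_one hq (hK.pre Y) hcon
  obtain ⟨B, j, β, k, r, hB, ⟨y, hy, hy0, hFy⟩, hk, hαβ⟩ := hK.hondaTate _ α hw
    (hK.integral Y m α ⟨x, hx, hx0, hFx⟩)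
  obtain ⟨κ, hκ⟩ := hK.kunneth Y B
  have hwβ := good_weight hq (hK.pre B) hB hy hy0 hFy
  have h1 := weil_unique hq (weil_mul (by omega) hw hwβ) (weil_of_pow hq hk hαβ)
  have h2 : m + j = 2 * r - 1 := by omega
  have h3 : κ (x ⊗ₜ y) ∈ (T.H (T.prod Y B)).gr (2 * r - 1) := by
    rw [← h2]
    exact hκ.degree m j x y hx hy
  have hF : (T.H (T.prod Y B)).F (κ (x ⊗ₜ y)) = (α * β) • κ (x ⊗ₜ y) := by
    have e : (T.H (T.prod Y B)).F (κ (x ⊗ₜ y)) = κ ((T.H Y).F x ⊗ₜ (T.H B).F y) := hκ.frob x y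
    rw [e, hFx, hFy, smul_tmul_smul, map_smul]
  have h4 := h B hB k r hk (by omega) _ h3 (by
      rw [frob_apply, powF_eigen hF, hαβ, smul_smul, inv_mul_cancel₀, one_smul]
      exact pow_ne_zero _ (Nat.cast_ne_zero.2 (by omega))) (by
      have e : (T.H (T.prod Y B)).N (κ (x ⊗ₜ y)) = κ ((T.H Y).N x ⊗ₜ y) + κ (x ⊗ₜ (T.H B).N y) :=
        hκ.monodromy x y
      rw [e, hNx, hB.zero, LinearMap.zero_apply, zero_tmul, tmul_zero, map_zero, add_zero])
  exact hy0 (tmul_left_cancel hx0 ((LinearEquiv.map_eq_zero_iff κ).1 h4))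

lemma G_of_bounded [IsAlgClosed Ω] {Z : T.Obj} (hK : T.Known q Z) (Y : T.Obj)
    (h : T.Bounded q Y) : G (T.H Y) q 0 1 := by
  have h1 := (bounded_iff hK.one_lt (hK.pre Y)).1 h
  exact h1 1 (by norm_num)

lemma exists_adp [IsAlgClosed Ω] {Z : T.Obj} (hK : T.Known q Z) (Y : T.Obj)
    (hY : T.WeightMonodromy q Y) :
    ∃ (I : Type) (_ : Fintype I) (a : I → ℤ), (T.H Y).Adp q a a := by
  obtain ⟨S⟩ := exists_strings hK.one_lt (hK.pre Y)
  have h := (mw_iff hK.one_lt (hK.pre Y) S).1 hY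
  have h2 : S.ct = S.wt := by
    funext p
    unfold Strings.ct Strings.wt
    rw [h p.1]
  refine ⟨S.P, inferInstance, S.wt, ?_⟩
  have := adp_strings S
  rwa [h2] at this

/-- The kernel of `N` is bounded if there is a centred adapted basis. -/
lemma P_of_adp [IsAlgClosed Ω] {Z : T.Obj} (hK : T.Known q Z) (Y : T.Obj)
    (h : ∃ (I : Type) (_ : Fintype I) (a : I → ℤ), (T.H Y).Adp q a a) : P (T.H Y) q 0 := by
  have hB1 : StB1.{w, v} := Pool.Agent.Y954.MW.stB1 Pool.Agent.Y141.MW.stL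
  obtain ⟨B, hB⟩ := hK.poincare Y
  obtain ⟨I, _, a, ha⟩ := h
  refine P_zero_of_inv_eq hK.one_lt (hK.pre Y) ⟨_, B, hB⟩ ?_
  rw [ha.inv_eq hB1, adp_pred_eq hK.one_lt (hK.pre Y) ha]

lemma adp_prod [IsAlgClosed Ω] {Z : T.Obj} (hK : T.Known q Z) {X Y : T.Obj}
    (hX : ∃ (I : Type) (_ : Fintype I) (a : I → ℤ), (T.H X).Adp q a a)
    (hY : ∃ (I : Type) (_ : Fintype I) (a : I → ℤ), (T.H Y).Adp q a a) :
    ∃ (I : Type) (_ : Fintype I) (a : I → ℤ), (T.H (T.prod X Y)).Adp q a a := by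
  obtain ⟨I, _, a, ha⟩ := hX
  obtain ⟨J, _, c, hc⟩ := hY
  obtain ⟨κ, hκ⟩ := hK.kunneth X Y
  exact ⟨I × J, inferInstance, _, ha.prod hc (by have := hK.one_lt; omega) hκ⟩

lemma adp_times [IsAlgClosed Ω] {Z : T.Obj} (hK : T.Known q Z) {X : T.Obj}
    (hX : ∃ (I : Type) (_ : Fintype I) (a : I → ℤ), (T.H X).Adp q a a) (n : ℕ) :
    ∃ (I : Type) (_ : Fintype I) (a : I → ℤ), (T.H (T.times X Z n)).Adp q a a := by
  induction n with
  | zero => exact hX
  | succ n ih => exact adp_prod hK ih (exists_adp hK Z hK.test.pure)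

/-- Products of mw pure varieties are mw pure. -/
lemma pure_prod [IsAlgClosed Ω] {Z : T.Obj} (hK : T.Known q Z) {X Y : T.Obj}
    (hX : ∃ (I : Type) (_ : Fintype I) (a : I → ℤ), (T.H X).Adp q a a)
    (hY : ∃ (I : Type) (_ : Fintype I) (a : I → ℤ), (T.H Y).Adp q a a) :
    T.WeightMonodromy q (T.prod X Y) := by
  refine pure_of_G hK _ ?_
  have h := P_of_adp hK _ (adp_times hK (adp_prod hK hX hY) (T.dim (T.prod X Y) - 1))
  exact h 1 (by norm_num)

theorem local_form [IsAlgClosed Ω] {Z : T.Obj} (hK : T.Known q Z) (X : T.Obj) :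
    List.TFAE [T.WeightMonodromy q X,
      T.Bounded q (T.times X Z (T.dim X - 1)),
      T.Stably q (T.NoInvariants q) (T.times X Z (T.dim X - 1)),
      T.Stably q (T.NoFirstCohomology q) (T.times X Z (T.dim X - 1))] := by
  have hq := hK.one_lt
  tfae_have 1 → 4 := by
    intro h B hB k r hk hr
    exact H1_of_pure hq (hK.pre _) hk hr (pure_prod hK (adp_times hK (exists_adp hK X h) _)
      (exists_adp hK B hB.pure) _)
  tfae_have 4 → 3 := fun h B hB k r hk hr => H0_of_H1 (hK.pre _) (h B hB k r hk hr)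
  tfae_have 3 → 1 := fun h => pure_of_G hK X (G_of_H0 hK _ h)
  tfae_have 1 → 2 := by
    intro h
    exact (bounded_iff hq (hK.pre _)).2 (P_of_adp hK _ (adp_times hK (exists_adp hK X h) _))
  tfae_have 2 → 1 := fun h => pure_of_G hK X (G_of_bounded hK _ h)
  tfae_finish

theorem global_form [IsAlgClosed Ω] {Z : T.Obj} (hK : T.Known q Z) :
    List.TFAE [∀ X, T.WeightMonodromy q X, ∀ Y, T.Bounded q Y, ∀ Y, T.NoInvariants q Y,
      ∀ Y, T.NoFirstCohomology q Y] := by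
  have hq := hK.one_lt
  tfae_have 1 → 4 := fun h Y k r hk hr => H1_of_pure hq (hK.pre Y) hk hr (h Y _)
  tfae_have 4 → 3 := fun h Y k r hk hr => H0_of_H1 (hK.pre Y) (h Y k r hk hr)
  tfae_have 3 → 1 := fun h X => ((local_form hK X).out 2 0).1 fun B _ => h _
  tfae_have 1 → 2 := by
    intro h Y
    exact (bounded_iff hq (hK.pre _)).2 (P_of_adp hK _ (exists_adp hK Y (h Y)))
  tfae_have 2 → 1 := fun h X => ((local_form hK X).out 1 0).1 (h _)
  tfae_finish

end RigidTheory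

end Pool.Agent.U644.RA
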