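import Pool.Agent.U644.GI.Defs
import Pool.Agent.U644.LT.Defs

/-!
# Cohomology of rigid-analytic varieties with projective reduction

`T.H X` is the `ℓ`-adic cohomology of the rigid-analytic variety `X` over a local field, with a
geometric Frobenius element `F` and the monodromy operator `N` (`Pool.Agent.Y163.MW.Coh`), with
coefficients in an algebraic closure of `ℚ_ℓ`.
-/

set_option autoImplicit false

open Module

namespace Pool.Agent.U644.RA

universe u v w

open Pool.Agent.Y143 Pool.Agent.Y163.MW Pool.Agent.U644.LT Pool.Agent.U644.MW Pool.Agent.U644.GI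

/-- The data: the smooth rigid-analytic varieties over `K` (of pure dimension) which have an
admissible formal model with projective special fibre, their dimensions, products and
cohomology. -/
structure RigidTheory (Ω : Type w) [Field Ω] where
  /-- the varieties -/
  Obj : Type u
  /-- the products -/
  prod : Obj → Obj → Obj
  /-- the dimension -/
  dim : Obj → ℕ
  /-- the cohomology -/
  H : Obj → Coh.{v, w} Ω

variable {Ω : Type w} [Field Ω] [CharZero Ω]

namespace RigidTheory

variable (T : RigidTheory.{u, v, w} Ω)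

/-- The product `X × Z ^ n`. -/
def times (X Z : T.Obj) : ℕ → T.Obj
  | 0 => X
  | n + 1 => T.prod (times X Z n) Z

/-- Poincaré duality for `X`. -/
def Poincare (q : ℕ) (X : T.Obj) : Prop := ∃ B, IsPoincare q (T.dim X) (T.H X).gr (T.H X).F B

/-- The Künneth formula for `X` and `Y`. -/
def Kunneth (X Y : T.Obj) : Prop := ∃ κ, IsKunneth (T.H X) (T.H Y) (T.H (T.prod X Y)) κ

/-- Honda–Tate theory: for every algebraic integer `α` which is a `q`-Weil number there are a variety
`B` with potentially good reduction (a product of abelian varieties), an eigenvalue `β` of the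
Frobenius element on some `H^j(B)`, and `k ≥ 1` and `r` with `(α β) ^ k = q ^ (k r)`. -/
def HondaTate (q : ℕ) : Prop :=
  ∀ (w : ℤ) (α : Ω), IsWeilNumber q w α → IsIntegral ℤ α →
    ∃ (B : T.Obj) (j : ℕ) (β : Ω) (k r : ℕ), IsGood (T.H B) q ∧
      GI.HasEigen ((T.H B).gr j) (T.H B).F β ∧ 0 < k ∧ (α * β) ^ k = (q : Ω) ^ (k * r)

/-- The known facts, with a test variety `Z` (the analytification of a Tate curve). -/
structure Known (q : ℕ) (Z : T.Obj) : Prop where
  one_lt : 1 < q
  pre : ∀ X, IsPre (T.H X) q
  poincare : ∀ X, T.Poincare q X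
  kunneth : ∀ X Y, T.Kunneth X Y
  range : ∀ X, WeightRange (T.H X) q (T.dim X)
  integral : ∀ X m α, GI.HasEigen ((T.H X).gr m) (T.H X).F α → IsIntegral ℤ α
  hondaTate : T.HondaTate q
  test : IsTest (T.H Z) q

/-- Q1 for `X`: for all `i`, `j` the eigenvalues of `F` on the graded piece of `H^i(X)` in degree `j`
of the monodromy filtration are `q`-Weil numbers of weight `i + j`. -/
def WeightMonodromy (q : ℕ) (X : T.Obj) : Prop := ∀ i, (T.H X).MWPure q i

/-- The kernel of `N` in `H^m(Y)` has weights at most `m`, for all `m`. -/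
def Bounded (q : ℕ) (Y : T.Obj) : Prop := InvariantsBounded (T.H Y) q

/-- `H^0(G_k, H^(2r-1)(Y)(r)) = 0` for all `k, r ≥ 1`. -/
def NoInvariants (q : ℕ) (Y : T.Obj) : Prop := ∀ k r, 0 < k → 0 < r → H0Vanishes (T.H Y) q k r

/-- `H^1(G_k, H^(2r-1)(Y)(r)) = 0` for all `k, r ≥ 1`. -/
def NoFirstCohomology (q : ℕ) (Y : T.Obj) : Prop :=
  ∀ k r, 0 < k → 0 < r → H1Vanishes (T.H Y) q k r

/-- `P` holds for the products of `Y` with all varieties with potentially good reduction. -/
def Stably (q : ℕ) (P : T.Obj → Prop) (Y : T.Obj) : Prop :=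
  ∀ B, IsGood (T.H B) q → P (T.prod Y B)

end RigidTheory

end Pool.Agent.U644.RA
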