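import Pool.Agent.U644.LT.Core
import Pool.Agent.U644.RA.Defs
import Pool.Agent.U644.GI.Main

/-!
# Weight-monodromy with Poincaré duality only: lemmas

The lemmas of `Pool/Agent/Y163/MW/Asm.lean`, `Pool/Agent/U644/MW`, `Pool/Agent/U644/GI` for the structure
`IsPre` and Poincaré duality.
-/

set_option autoImplicit false

open Module TensorProduct

namespace Pool.Agent.U644.RA

universe u v w

open Pool.Agent.Y143 Pool.Agent.Y136.UB Pool.Agent.Y163.MW Pool.Agent.U644.LT
open Pool.Agent.Y163.MW.Coh (wtf wtf_eq pc adp_strings exists_len kunneth_tot)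
open Pool.Agent.U644.MW (P InvariantsBounded IsTest WeightRange tmul_left_cancel P_of_prod repr_N)
open Pool.Agent.U644.GI (G G_unit weil_of_pow HasEigen IsGood H0Vanishes H1Vanishes frob
  frob_apply F_frob powF_eigen)

variable {Ω : Type w} [Field Ω] [CharZero Ω] {R R' R'' : Coh.{v, w} Ω} {q : ℕ}

section adp

variable {I : Type} [Fintype I] {a c : I → ℤ}

lemma adp_finrank_tot (hq : 1 < q) (hR : IsPre R q) (H : R.Adp q a c) (r : ℤ) :
    finrank Ω (R.tot q r) = Nat.card {i // c i = r} := by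
  obtain ⟨b, e, h, -, hb⟩ := H
  exact finrank_gr (indep_tot hq hR) b c hb r

lemma adp_pred_eq (hq : 1 < q) (hR : IsPre R q) (H : R.Adp q a c) :
    R.pred q = Nat.card {i // c i = 0 ∨ c i = 1} := by
  classical
  rw [Coh.pred, adp_finrank_tot hq hR H, adp_finrank_tot hq hR H, Nat.card_eq_fintype_card,
    Nat.card_eq_fintype_card, Nat.card_eq_fintype_card, Fintype.card_subtype,
    Fintype.card_subtype, Fintype.card_subtype, Finset.filter_or, Finset.card_union_of_disjoint]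
  rw [Finset.disjoint_filter]
  intro i _ h0 h1
  omega

end adp

lemma exists_strings [IsAlgClosed Ω] (hq : 1 < q) (hR : IsPre R q) :
    Nonempty (Strings (R.tot q) R.N) := by
  have := hR.finite
  exact Pool.Agent.Y153.MW.stA Ω R.V (R.tot q) R.N (isInternal_tot hq hR) (N_tot hq hR)

lemma mw_iff [IsAlgClosed Ω] (hq : 1 < q) (hR : IsPre R q) (S : Strings (R.tot q) R.N) :
    (∀ m, R.MWPure q m) ↔ ∀ s, S.top s = S.len s := by
  rw [← centred_tot_iff hq hR]
  exact Pool.Agent.Y614.MW.stF Ω R.V (R.tot q) R.N (isInternal_tot hq hR) S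

lemma pow_tot (hq : 1 < q) (hR : IsPre R q) (k : ℕ) (c : ℤ) :
    ∀ x ∈ R.tot q c, (R.N ^ k) x ∈ R.tot q (c - 2 * k) := by
  induction k with
  | zero => intro x hx; simpa using hx
  | succ k ih =>
    intro x hx
    rw [pow_succ', Module.End.mul_apply]
    have := N_tot hq hR _ _ (ih x hx)
    rwa [show c - 2 * (k : ℤ) - 2 = c - 2 * ((k + 1 : ℕ) : ℤ) by push_cast; ring] at this

/-- The vectors of the test variety. -/
lemma exists_test [IsAlgClosed Ω] (hq : 1 < q) (hR : IsPre R q) (h : IsTest R q) :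
    (∃ y ∈ R.tot q 0, y ≠ 0 ∧ R.N y = 0) ∧
      ∃ e ∈ R.tot q 1, R.N e ∈ R.tot q (-1) ∧ R.N e ≠ 0 ∧ R.N (R.N e) = 0 := by
  constructor
  · obtain ⟨y, hy, h0, hF, hN⟩ := h.unit
    refine ⟨y, exc_le_tot 0 0 ?_, h0, hN⟩
    have h1 : IsWeilNumber q (((0 : ℕ) : ℤ) + 0) (1 : Ω) := by
      have := weil_natPow (Ω := Ω) (q := q) (by omega) 0
      simpa using this
    refine Submodule.mem_iSup_of_mem 1 (Submodule.mem_iSup_of_mem h1 ?_)
    refine Submodule.mem_inf.2 ⟨hy, ?_⟩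
    refine Module.End.mem_maxGenEigenspace _ _ _ |>.2 ⟨1, ?_⟩
    simp [hF]
  · obtain ⟨S⟩ := exists_strings hq hR
    obtain ⟨s, hs⟩ := exists_len S h.ne_zero
    have htop := (mw_iff hq hR S).1 h.pure s
    have h1 : S.len s = 1 := by
      by_contra hcon
      have h2 : 2 ≤ S.len s := by omega
      have e1 := S.succ s ⟨0, by omega⟩
      have e2 := S.succ s ⟨1, by omega⟩
      have e3 : (⟨0, by omega⟩ : Fin (S.len s)).succ = (⟨1, by omega⟩ : Fin (S.len s)).castSucc := rfl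
      rw [e3] at e1
      have h3 := h.sq_zero (S.b ⟨s, (⟨0, by omega⟩ : Fin (S.len s)).castSucc⟩)
      rw [e1, e2] at h3
      exact S.b.ne_zero _ h3
    have e1 := S.succ s ⟨0, by omega⟩
    refine ⟨S.b ⟨s, (⟨0, by omega⟩ : Fin (S.len s)).castSucc⟩, ?_, ?_, ?_, h.sq_zero _⟩
    · have hm := S.mem s (⟨0, by omega⟩ : Fin (S.len s)).castSucc
      have e : S.top s - 2 * (((⟨0, by omega⟩ : Fin (S.len s)).castSucc : ℕ) : ℤ) = 1 := by
        rw [Fin.val_castSucc]
        simp only [Nat.cast_zero]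
        omega
      rw [e] at hm
      exact hm
    · rw [e1]
      have hm := S.mem s (⟨0, by omega⟩ : Fin (S.len s)).succ
      have e : S.top s - 2 * (((⟨0, by omega⟩ : Fin (S.len s)).succ : ℕ) : ℤ) = -1 := by
        rw [Fin.val_succ]
        simp only [zero_add, Nat.cast_one]
        omega
      rw [e] at hm
      exact hm
    · rw [e1]
      exact S.b.ne_zero _

/-- The bounds for the kernels of the powers give the monodromy-weight conjecture. -/
lemma pure_of_P [IsAlgClosed Ω] (hq : 1 < q) (hR : IsPre R q)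
    (hP : ∃ d B, IsPoincare q d R.gr R.F B) (h : ∀ b, P R q b) :
    ∀ m, R.MWPure q m := by
  have := hR.finite
  rw [← centred_tot_iff hq hR]
  intro a
  have hinj : ∀ x ∈ R.tot q a, (R.N ^ a) x = 0 → x = 0 := by
    intro x hx h0
    rcases Nat.eq_zero_or_pos a with ha | ha
    · subst ha
      simpa using h0
    · obtain ⟨b, rfl⟩ : ∃ b, a = b + 1 := ⟨a - 1, by omega⟩
      exact h b ((b + 1 : ℕ) : ℤ) (by push_cast; omega) x hx h0
  refine ⟨hinj, ?_⟩
  have hmap : ∀ x ∈ R.tot q a, (R.N ^ a) x ∈ R.tot q (-(a : ℤ)) := by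
    intro x hx
    have := pow_tot hq hR a a x hx
    rwa [show (a : ℤ) - 2 * a = -a by ring] at this
  let φ : R.tot q a →ₗ[Ω] R.tot q (-(a : ℤ)) := (R.N ^ a).restrict hmap
  have hφ : Function.Injective φ := by
    rw [← LinearMap.ker_eq_bot, LinearMap.ker_eq_bot']
    intro x hx
    apply Subtype.ext
    exact hinj x x.2 (congrArg Subtype.val hx)
  have hφ' : Function.Surjective φ :=
    (LinearMap.injective_iff_surjective_of_finrank_eq_finrank (finrank_tot_neg hq hR hP a)).1 hφ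
  intro y hy
  obtain ⟨x, hx⟩ := hφ' ⟨y, hy⟩
  exact ⟨x, x.2, congrArg Subtype.val hx⟩

/-- For a cohomology with strings: `inv = pred` implies that the kernel of `N` has excess at most
zero. -/
lemma P_zero_of_inv_eq [IsAlgClosed Ω] (hq : 1 < q) (hR : IsPre R q)
    (hP : ∃ d B, IsPoincare q d R.gr R.F B) (h : R.inv = R.pred q) :
    P R q 0 := by
  classical
  have := hR.finite
  obtain ⟨S⟩ := exists_strings hq hR
  have H := adp_strings S
  -- the strings give independent elements of the kernel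
  have h1 : Fintype.card S.ι ≤ R.inv := by
    let v : S.ι → LinearMap.ker R.N := fun s => ⟨S.b ⟨s, Fin.last _⟩, S.last s⟩
    have hv : LinearIndependent Ω v := by
      apply LinearIndependent.of_comp (LinearMap.ker R.N).subtype
      exact S.b.linearIndependent.comp (fun s : S.ι => (⟨s, Fin.last _⟩ : Σ s : S.ι, Fin (S.len s + 1)))
        (fun s t hst => congrArg Sigma.fst hst)
    exact hv.fintype_card_le_finrank
  have h2 : R.pred q = Nat.card {p : S.P // S.wt p = 0} + Nat.card {p : S.P // S.wt p = -1} := by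
    unfold Coh.pred
    rw [finrank_tot_neg hq hR hP 1, adp_finrank_tot hq hR H, adp_finrank_tot hq hR H]
  have h3 : Nat.card {p : S.P // S.wt p = 0} + Nat.card {p : S.P // S.wt p = -1} ≤
      Nat.card {s : S.ι // S.top s - 2 * S.len s ≤ 0} := by
    rw [← Nat.card_sum]
    let f : {p : S.P // S.wt p = 0} ⊕ {p : S.P // S.wt p = -1} →
        {s : S.ι // S.top s - 2 * S.len s ≤ 0} := fun z => match z with
      | .inl p => ⟨p.1.1, by
          have h4 := p.2
          have h5 := p.1.2.2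
          unfold Strings.wt at h4
          omega⟩
      | .inr p => ⟨p.1.1, by
          have h4 := p.2
          have h5 := p.1.2.2
          unfold Strings.wt at h4
          omega⟩
    refine Nat.card_le_card_of_injective f ?_
    rintro (⟨⟨s, i⟩, hi⟩ | ⟨⟨s, i⟩, hi⟩) (⟨⟨t, j⟩, hj⟩ | ⟨⟨t, j⟩, hj⟩) hst
    all_goals
      have h4 : s = t := congrArg Subtype.val hst
      subst h4
      unfold Strings.wt at hi hj
      simp only at hi hj
    · have h5 : i = j := Fin.ext (by omega)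
      subst h5; rfl
    · omega
    · omega
    · have h5 : i = j := Fin.ext (by omega)
      subst h5; rfl
  have h4 : ∀ s : S.ι, S.top s - 2 * S.len s ≤ 0 := by
    by_contra hcon
    push Not at hcon
    obtain ⟨s, hs⟩ := hcon
    have h5 : Nat.card {s : S.ι // S.top s - 2 * S.len s ≤ 0} < Nat.card S.ι := by
      rw [Nat.card_eq_fintype_card, Nat.card_eq_fintype_card]
      exact Fintype.card_subtype_lt (x := s) (by omega)
    rw [Nat.card_eq_fintype_card (α := S.ι)] at h5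
    omega
  intro c hc x hx h0
  rw [zero_add, pow_one] at h0
  have hx' : x ∈ Submodule.span Ω (S.b '' {p | S.wt p = c}) := by
    rw [← gr_eq_span (indep_tot hq hR) S.b S.wt S.mem' c]
    exact hx
  rw [Basis.mem_span_image] at hx'
  apply S.b.repr.map_eq_zero_iff.1
  ext ⟨s, i⟩
  induction i using Fin.lastCases with
  | last =>
    by_contra h5
    have h6 := hx' (Finsupp.mem_support_iff.2 h5)
    have h7 : S.wt ⟨s, Fin.last _⟩ = c := h6
    unfold Strings.wt at h7
    simp only [Fin.val_last] at h7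
    have := h4 s
    simp only [Nat.cast_zero] at hc
    omega
  | cast i =>
    rw [← repr_N S x s i, h0, map_zero]
    rfl

/-- The invariants are bounded if and only if the kernel of `N` has excess at most zero. -/
lemma bounded_iff [IsAlgClosed Ω] (hq : 1 < q) (hR : IsPre R q) : InvariantsBounded R q ↔ P R q 0 := by
  classical
  have := hR.finite
  have hind := hR.isInternal.submodule_iSupIndep
  rw [iSupIndep_iff_finsetSum_eq_zero_imp_eq_zero] at hind
  constructor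
  · intro h c hc x hx h0
    rw [zero_add, pow_one] at h0
    -- decomposition
    obtain ⟨f, hf, hfx⟩ := (Submodule.mem_iSup_iff_exists_finsupp _ _).1 hx
    have hfx' : ∑ m ∈ f.support, f m = x := hfx
    have h1 : ∀ m ∈ f.support, R.N (f m) = 0 := by
      refine hind f.support _ (fun m _ => hR.N_gr m _ (exc_le m c (hf m))) ?_
      rw [← map_sum, hfx', h0]
    rw [← hfx']
    refine Finset.sum_eq_zero fun m hm => ?_
    by_contra h2
    -- an eigenvector
    let S : Submodule Ω R.V := R.exc q m c ⊓ LinearMap.ker R.N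
    have hS : ∀ y ∈ S, R.F y ∈ S := by
      intro y hy
      obtain ⟨h3, h4⟩ := Submodule.mem_inf.1 hy
      refine Submodule.mem_inf.2 ⟨F_exc hR m c y h3, ?_⟩
      rw [LinearMap.mem_ker]
      have := hR.N_F y
      rw [this, LinearMap.mem_ker.1 h4, map_zero, smul_zero]
    have : Nontrivial S := ⟨⟨f m, Submodule.mem_inf.2 ⟨hf m, LinearMap.mem_ker.2 (h1 m hm)⟩⟩, 0,
      fun h5 => h2 (congrArg Subtype.val h5)⟩
    obtain ⟨α, hα⟩ := Module.End.exists_eigenvalue (R.F.restrict hS)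
    obtain ⟨y, hy⟩ := hα.exists_hasEigenvector
    have hy1 : R.F y = α • (y : R.V) := congrArg Subtype.val hy.apply_eq_smul
    have hy0 : (y : R.V) ≠ 0 := fun h5 => hy.2 (Subtype.ext h5)
    obtain ⟨h3, h4⟩ := Submodule.mem_inf.1 y.2
    obtain ⟨w, hw, hw'⟩ := h m α y (exc_le m c h3) hy0 (LinearMap.mem_ker.1 h4) hy1
    have h5 := eigen_exc hq hR h3 hy0 hy1
    have h6 := weil_unique hq hw' h5
    simp only [Nat.cast_zero] at hc
    omega
  · intro h m α x hx hx0 hN hF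
    obtain ⟨w, hw⟩ := hR.weil m α x hx hx0 hF
    refine ⟨w, ?_, hw⟩
    by_contra hcon
    apply hx0
    refine h (w - m) (by push_cast; omega) x (exc_le_tot m _ ?_) (by rw [zero_add, pow_one, hN])
    refine Submodule.mem_iSup_of_mem α (Submodule.mem_iSup_of_mem ?_ ?_)
    · rwa [show (m : ℤ) + (w - m) = w by ring]
    · refine Submodule.mem_inf.2 ⟨hx, ?_⟩
      refine (Module.End.mem_maxGenEigenspace _ _ _).2 ⟨1, ?_⟩
      simp [hF]

/-- The excesses are bounded. -/
lemma tot_eq_bot [IsAlgClosed Ω] (hq : 1 < q) (hR : IsPre R q) {d : ℕ} (h : WeightRange R q d) {c : ℤ}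
    (hc : (d : ℤ) < c) : R.tot q c = ⊥ := by
  classical
  have := hR.finite
  rw [eq_bot_iff]
  refine iSup_le fun m => ?_
  by_contra h2
  have h2' : R.exc q m c ≠ ⊥ := fun h3 => h2 (by rw [h3])
  obtain ⟨x, hx, hx0⟩ := Submodule.exists_mem_ne_zero_of_ne_bot h2'
  have : Nontrivial (R.exc q m c) := ⟨⟨x, hx⟩, 0, fun h5 => hx0 (congrArg Subtype.val h5)⟩
  obtain ⟨α, hα⟩ := Module.End.exists_eigenvalue (R.F.restrict (F_exc (q := q) hR m c))
  obtain ⟨y, hy⟩ := hα.exists_hasEigenvector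
  have hy1 : R.F y = α • (y : R.V) := congrArg Subtype.val hy.apply_eq_smul
  have hy0 : (y : R.V) ≠ 0 := fun h5 => hy.2 (Subtype.ext h5)
  have h5 := eigen_exc hq hR y.2 hy0 hy1
  have h6 := h m α y (exc_le m c y.2) hy0 hy1 _ h5
  omega

lemma G_step (hq : 1 < q) (hR : IsPre R q) {κ : R.V ⊗[Ω] R'.V ≃ₗ[Ω] R''.V}
    (hκ : IsKunneth R R' R'' κ) {b : ℕ} {c : ℤ} (h : G R'' q b c)
    (h' : ∃ e ∈ R'.tot q 1, R'.N e ∈ R'.tot q (-1) ∧ R'.N e ≠ 0 ∧ R'.N (R'.N e) = 0) :
    G R q (b + 1) (c + 1) := by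
  obtain ⟨e, he, hf, hf0, hNf⟩ := h'
  intro x hx h0
  have hN1 : ∀ (x : R.V) (y : R'.V), R''.N (κ (x ⊗ₜ y)) = κ (R.N x ⊗ₜ y) + κ (x ⊗ₜ R'.N y) :=
    hκ.monodromy
  have hNf' : ∀ k : ℕ, ∀ x, (R''.N ^ k) (κ (x ⊗ₜ R'.N e)) = κ ((R.N ^ k) x ⊗ₜ R'.N e) := by
    intro k
    induction k with
    | zero => intro x; simp
    | succ k ih =>
      intro x
      rw [pow_succ, Module.End.mul_apply, hN1, hNf, tmul_zero, map_zero, add_zero, ih, pow_succ,
        Module.End.mul_apply]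
  have hNe : ∀ k : ℕ, ∀ x, (R''.N ^ (k + 1)) (κ (x ⊗ₜ e)) =
      κ ((R.N ^ (k + 1)) x ⊗ₜ e) + ((k + 1 : ℕ) : Ω) • κ ((R.N ^ k) x ⊗ₜ R'.N e) := by
    intro k
    induction k with
    | zero => intro x; simp [hN1]
    | succ k ih =>
      intro x
      rw [pow_succ, Module.End.mul_apply, hN1, map_add, ih, hNf', pow_succ (R.N) (k + 1),
        Module.End.mul_apply, add_assoc]
      congr 1
      have e1 : (R.N ^ k) (R.N x) = (R.N ^ (k + 1)) x := by
        rw [pow_succ, Module.End.mul_apply]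
      rw [e1]
      push_cast
      module
  have hb : ((b + 1 : ℕ) : Ω) ≠ 0 := Nat.cast_ne_zero.2 (by omega)
  have hx' : κ (x ⊗ₜ R'.N e) - (((b + 1 : ℕ) : Ω))⁻¹ • κ (R.N x ⊗ₜ e) ∈ R''.tot q c := by
    refine Submodule.sub_mem _ ?_ (Submodule.smul_mem _ _ ?_)
    · have := kunneth_tot (by omega) hκ hx hf
      rwa [show c + 1 + -1 = c by ring] at this
    · have := kunneth_tot (by omega) hκ (N_tot hq hR _ _ hx) he
      rwa [show c + 1 - 2 + 1 = c by ring] at this
  have h1 := h _ hx' (by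
    rw [map_sub, map_smul, hNf', hNe, ← Module.End.mul_apply, ← Module.End.mul_apply, ← pow_succ,
      ← pow_succ, show b + 1 + 1 = b + 2 by ring]
    have h2 : (R.N ^ (b + 2)) x = 0 := h0
    rw [h2, zero_tmul, map_zero, zero_add, smul_smul, inv_mul_cancel₀ hb, one_smul, sub_self])
  by_contra hx0
  have h3 : κ (x ⊗ₜ R'.N e) = (((b + 1 : ℕ) : Ω))⁻¹ • κ (R.N x ⊗ₜ e) := sub_eq_zero.1 h1
  have h4 : x ⊗ₜ[Ω] R'.N e = (((b + 1 : ℕ) : Ω))⁻¹ • (R.N x ⊗ₜ[Ω] e) := by
    apply κ.injective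
    rw [h3, map_smul]
  have h5 := congrArg (TensorProduct.map (LinearMap.id : R.V →ₗ[Ω] R.V) R'.N) h4
  rw [map_smul, TensorProduct.map_tmul, TensorProduct.map_tmul, LinearMap.id_apply,
    LinearMap.id_apply, hNf, tmul_zero] at h5
  have h6 : R.N x ⊗ₜ[Ω] R'.N e = 0 := (smul_eq_zero.1 h5.symm).resolve_left (inv_ne_zero hb)
  have h7 : R.N x = 0 := by
    by_contra h8
    exact hf0 (tmul_left_cancel h8 h6)
  rw [h7, zero_tmul, smul_zero] at h4
  exact hf0 (tmul_left_cancel hx0 h4)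

lemma powF_mem (hR : IsPre R q) (m k : ℕ) : ∀ x ∈ R.gr m, (R.F ^ k) x ∈ R.gr m := by
  induction k with
  | zero => intro x hx; simpa using hx
  | succ k ih =>
    intro x hx
    rw [pow_succ, Module.End.mul_apply]
    exact ih _ (hR.F_gr m x hx)

lemma frob_mem (hR : IsPre R q) (m k r : ℕ) : ∀ x ∈ R.gr m, frob R q k r x ∈ R.gr m :=
  fun x hx => Submodule.smul_mem _ _ (powF_mem hR m k x hx)

lemma N_powF (hR : IsPre R q) (k : ℕ) (x : R.V) :
    R.N ((R.F ^ k) x) = (q : Ω) ^ k • (R.F ^ k) (R.N x) := by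
  induction k generalizing x with
  | zero => simp
  | succ k ih =>
    rw [pow_succ, Module.End.mul_apply, ih, hR.N_F x, map_smul, smul_smul, Module.End.mul_apply,
      pow_succ]

lemma N_frob (hR : IsPre R q) (k r : ℕ) (x : R.V) :
    R.N (frob R q k r x) = (q : Ω) ^ k • frob R q k r (R.N x) := by
  rw [frob_apply, frob_apply, map_smul, N_powF hR, smul_comm]

/-- eigenvectors in a nonzero stable subspace -/
lemma exists_eigen [IsAlgClosed Ω] (hR : IsPre R q) {S : Submodule Ω R.V}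
    (hS : ∀ x ∈ S, R.F x ∈ S) (h : S ≠ ⊥) : ∃ α : Ω, ∃ y ∈ S, y ≠ 0 ∧ R.F y = α • y := by
  have := hR.finite
  obtain ⟨x, hx, hx0⟩ := Submodule.exists_mem_ne_zero_of_ne_bot h
  have : Nontrivial S := ⟨⟨x, hx⟩, 0, fun h5 => hx0 (congrArg Subtype.val h5)⟩
  obtain ⟨α, hα⟩ := Module.End.exists_eigenvalue (R.F.restrict hS)
  obtain ⟨y, hy⟩ := hα.exists_hasEigenvector
  exact ⟨α, y, y.2, fun h5 => hy.2 (Subtype.ext h5), congrArg Subtype.val hy.apply_eq_smul⟩

/-- if `c q^(-kr) F^k` fixes a nonzero vector of the stable subspace `S` then `F` has an eigenvector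
there whose eigenvalue satisfies `c α ^ k = q ^ (k r)` -/
lemma exists_eigen' [IsAlgClosed Ω] (hq : 1 < q) (hR : IsPre R q) {S : Submodule Ω R.V}
    (hS : ∀ x ∈ S, R.F x ∈ S) {k r : ℕ} {c : Ω} {x : R.V} (hx : x ∈ S) (hx0 : x ≠ 0)
    (h : c • frob R q k r x = x) :
    ∃ α : Ω, ∃ y ∈ S, y ≠ 0 ∧ R.F y = α • y ∧ c * α ^ k = (q : Ω) ^ (k * r) := by
  have hq0 : ((q : Ω) ^ (k * r)) ≠ 0 := pow_ne_zero _ (Nat.cast_ne_zero.2 (by omega))
  let S' : Submodule Ω R.V := S ⊓ LinearMap.ker (c • frob R q k r - 1)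
  have hS' : ∀ x ∈ S', R.F x ∈ S' := by
    intro x hx
    obtain ⟨h1, h2⟩ := Submodule.mem_inf.1 hx
    refine Submodule.mem_inf.2 ⟨hS x h1, ?_⟩
    rw [LinearMap.mem_ker, LinearMap.sub_apply, LinearMap.smul_apply, Module.End.one_apply] at h2 ⊢
    rw [← F_frob, ← map_smul, ← map_sub, h2, map_zero]
  have hne : S' ≠ ⊥ := by
    rw [Submodule.ne_bot_iff]
    refine ⟨x, Submodule.mem_inf.2 ⟨hx, ?_⟩, hx0⟩
    rw [LinearMap.mem_ker, LinearMap.sub_apply, LinearMap.smul_apply, Module.End.one_apply, h,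
      sub_self]
  obtain ⟨α, y, hy, hy0, hFy⟩ := exists_eigen hR hS' hne
  obtain ⟨h1, h2⟩ := Submodule.mem_inf.1 hy
  refine ⟨α, y, h1, hy0, hFy, ?_⟩
  rw [LinearMap.mem_ker, LinearMap.sub_apply, LinearMap.smul_apply, Module.End.one_apply,
    frob_apply, powF_eigen hFy, smul_smul, smul_smul, sub_eq_zero] at h2
  have h3 : c * (((q : Ω) ^ (k * r))⁻¹ * α ^ k) = 1 := by
    have h4 : (c * (((q : Ω) ^ (k * r))⁻¹ * α ^ k) - 1) • y = 0 := by
      rw [sub_smul, one_smul, sub_eq_zero]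
      rw [mul_assoc] at h2
      exact h2
    exact sub_eq_zero.1 ((smul_eq_zero.1 h4).resolve_right hy0)
  field_simp at h3
  linear_combination h3

/-- For a mw pure cohomology `H^0` vanishes. -/
lemma H0_of_pure [IsAlgClosed Ω] (hq : 1 < q) (hR : IsPre R q) {k r : ℕ} (hk : 0 < k) (hr : 0 < r)
    (h : R.MWPure q (2 * r - 1)) : H0Vanishes R q k r := by
  intro x hx hF hN
  by_contra hx0
  let S : Submodule Ω R.V := R.gr (2 * r - 1) ⊓ LinearMap.ker R.N
  have hS : ∀ x ∈ S, R.F x ∈ S := by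
    intro x hx
    obtain ⟨h1, h2⟩ := Submodule.mem_inf.1 hx
    refine Submodule.mem_inf.2 ⟨hR.F_gr _ x h1, ?_⟩
    rw [LinearMap.mem_ker] at h2 ⊢
    have := hR.N_F x
    rw [this, h2, map_zero, smul_zero]
  obtain ⟨α, y, hy, hy0, hFy, hα⟩ := exists_eigen' (c := 1) hq hR hS
    (Submodule.mem_inf.2 ⟨hx, LinearMap.mem_ker.2 hN⟩) hx0 (by rw [one_smul, hF])
  rw [one_mul] at hα
  have hw := weil_of_pow hq hk hα
  obtain ⟨h1, h2⟩ := Submodule.mem_inf.1 hy
  have h3 : y ∈ R.exc q (2 * r - 1) 1 := by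
    refine Submodule.mem_iSup_of_mem α (Submodule.mem_iSup_of_mem ?_ ?_)
    · rwa [show ((2 * r - 1 : ℕ) : ℤ) + 1 = 2 * r by omega]
    · exact Submodule.mem_inf.2 ⟨h1, (Module.End.mem_maxGenEigenspace _ _ _).2 ⟨1, by simp [hFy]⟩⟩
  exact hy0 (((mwPure_iff hq hR _).1 h 1).1 y h3 (by simpa using h2))

/-- For a mw pure cohomology the second map of the complex is surjective. -/
lemma H2_of_pure [IsAlgClosed Ω] (hq : 1 < q) (hR : IsPre R q) {k r : ℕ} (hk : 0 < k) (hr : 0 < r)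
    (h : R.MWPure q (2 * r - 1)) : ∀ y ∈ R.gr (2 * r - 1), ∃ a ∈ R.gr (2 * r - 1),
      ∃ b ∈ R.gr (2 * r - 1), y = R.N a - ((q : Ω) ^ k • frob R q k r b - b) := by
  have := hR.finite
  set m := 2 * r - 1 with hm
  let D : Module.End Ω R.V := (q : Ω) ^ k • frob R q k r - 1
  let W : Submodule Ω R.V := (R.gr m).map R.N ⊔ (R.gr m).map D
  suffices H : R.gr m ≤ W by
    intro y hy
    obtain ⟨y1, h1, y2, h2, rfl⟩ := Submodule.mem_sup.1 (H hy)
    obtain ⟨a, ha, rfl⟩ := Submodule.mem_map.1 h1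
    obtain ⟨b, hb, rfl⟩ := Submodule.mem_map.1 h2
    refine ⟨a, ha, -b, Submodule.neg_mem _ hb, ?_⟩
    show R.N a + ((q : Ω) ^ k • frob R q k r b - b) = _
    rw [map_neg, smul_neg]
    abel
  rw [← iSup_exc hR m]
  refine iSup_le fun c => ?_
  by_cases hc : c = -1
  · subst hc
    intro y hy
    obtain ⟨x, hx, hxy⟩ := ((mwPure_iff hq hR _).1 h 1).2 y hy
    rw [pow_one] at hxy
    exact Submodule.mem_sup_left (Submodule.mem_map.2 ⟨x, exc_le m _ hx, hxy⟩)
  · have hD : ∀ x ∈ R.exc q m c, D x ∈ R.exc q m c := by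
      have h1 : ∀ (j : ℕ), ∀ x ∈ R.exc q m c, (R.F ^ j) x ∈ R.exc q m c := by
        intro j
        induction j with
        | zero => intro x hx; simpa using hx
        | succ j ih => intro x hx; rw [pow_succ, Module.End.mul_apply]; exact ih _ (F_exc hR m c x hx)
      intro x hx
      exact Submodule.sub_mem _ (Submodule.smul_mem _ _ (Submodule.smul_mem _ _ (h1 k x hx))) hx
    have hinj : Function.Injective (D.restrict hD) := by
      rw [← LinearMap.ker_eq_bot, LinearMap.ker_eq_bot']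
      intro x hx
      apply Subtype.ext
      by_contra hx0
      have h1 : D x = 0 := congrArg Subtype.val hx
      have h2 : (q : Ω) ^ k • frob R q k r (x : R.V) = x := sub_eq_zero.1 h1
      obtain ⟨α, y, hy, hy0, hFy, hα⟩ := exists_eigen' hq hR (F_exc hR m c) x.2 hx0 h2
      have h3 := eigen_exc hq hR hy hy0 hFy
      have hr1 : k * r = k * (r - 1) + k := by
        obtain ⟨s, rfl⟩ : ∃ s, r = s + 1 := ⟨r - 1, by omega⟩
        rw [Nat.add_sub_cancel]; ring
      have h4 : α ^ k = (q : Ω) ^ (k * (r - 1)) := by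
        have hq0 : ((q : Ω) ^ k) ≠ 0 := pow_ne_zero _ (Nat.cast_ne_zero.2 (by omega))
        rw [hr1, pow_add, mul_comm] at hα
        exact mul_right_cancel₀ hq0 hα
      have h5 := weil_unique hq h3 (weil_of_pow hq hk h4)
      have h6 : ((r - 1 : ℕ) : ℤ) = r - 1 := by omega
      rw [h6] at h5
      have h7 : (m : ℤ) = 2 * r - 1 := by omega
      omega
    have hsurj := LinearMap.injective_iff_surjective.1 hinj
    intro y hy
    obtain ⟨x, hx⟩ := hsurj ⟨y, hy⟩
    exact Submodule.mem_sup_right (Submodule.mem_map.2 ⟨x, exc_le m c x.2, congrArg Subtype.val hx⟩)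

/-- For a mw pure cohomology `H^1` vanishes. -/
lemma H1_of_pure [IsAlgClosed Ω] (hq : 1 < q) (hR : IsPre R q) {k r : ℕ} (hk : 0 < k) (hr : 0 < r)
    (h : R.MWPure q (2 * r - 1)) : H1Vanishes R q k r := by
  have := hR.finite
  have h0 := H0_of_pure hq hR hk hr h
  have h2 := H2_of_pure hq hR hk hr h
  set m := 2 * r - 1 with hm
  let V := R.gr m
  let A : Module.End Ω V := (frob R q k r).restrict (frob_mem hR m k r)
  let N : Module.End Ω V := R.N.restrict (hR.N_gr m)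
  let d0 : V →ₗ[Ω] V × V := LinearMap.prod (A - 1) N
  let d1 : V × V →ₗ[Ω] V := N.coprod (1 - (q : Ω) ^ k • A)
  have hd0 : LinearMap.ker d0 = ⊥ := by
    rw [LinearMap.ker_eq_bot']
    intro x hx
    apply Subtype.ext
    have h3 : (A - 1) x = 0 := congrArg Prod.fst hx
    have h4 : N x = 0 := congrArg Prod.snd hx
    exact h0 x x.2 (sub_eq_zero.1 (congrArg Subtype.val h3)) (congrArg Subtype.val h4)
  have hd1 : Function.Surjective d1 := by
    intro y
    obtain ⟨a, ha, b, hb, hy⟩ := h2 y y.2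
    refine ⟨(⟨a, ha⟩, ⟨b, hb⟩), Subtype.ext ?_⟩
    rw [hy]
    show R.N a + (b - (q : Ω) ^ k • frob R q k r b) = _
    abel
  have hcomp : d1 ∘ₗ d0 = 0 := by
    ext x
    show R.N (frob R q k r x - x) + (R.N x - (q : Ω) ^ k • frob R q k r (R.N x)) = 0
    rw [map_sub, N_frob hR]
    abel
  have hle : LinearMap.range d0 ≤ LinearMap.ker d1 := by
    rw [LinearMap.range_le_ker_iff]; exact hcomp
  have hdim : finrank Ω (LinearMap.ker d1) ≤ finrank Ω (LinearMap.range d0) := by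
    have e1 := LinearMap.finrank_range_add_finrank_ker d1
    have e2 := LinearMap.finrank_range_add_finrank_ker d0
    rw [LinearMap.range_eq_top.2 hd1, finrank_top, Module.finrank_prod] at e1
    rw [hd0, finrank_bot, add_zero] at e2
    omega
  have heq := Submodule.eq_of_le_of_finrank_le hle hdim
  intro a ha b hb hab
  have h3 : ((⟨a, ha⟩, ⟨b, hb⟩) : V × V) ∈ LinearMap.ker d1 := by
    rw [LinearMap.mem_ker]
    apply Subtype.ext
    show R.N a + (b - (q : Ω) ^ k • frob R q k r b) = 0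
    rw [hab]
    abel
  rw [← heq] at h3
  obtain ⟨x, hx⟩ := h3
  refine ⟨x, x.2, ?_, ?_⟩
  · exact (congrArg Subtype.val (congrArg Prod.fst hx)).symm
  · exact (congrArg Subtype.val (congrArg Prod.snd hx)).symm

/-- If `H^1` vanishes then `H^0` vanishes. -/
lemma H0_of_H1 (hR : IsPre R q) {k r : ℕ} (h : H1Vanishes R q k r) : H0Vanishes R q k r := by
  have := hR.finite
  intro x hx hF hN
  set m := 2 * r - 1 with hm
  let S : Submodule Ω R.V := R.gr m ⊓ LinearMap.ker R.N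
  have hS : ∀ x ∈ S, (frob R q k r - 1) x ∈ S := by
    intro x hx
    obtain ⟨h1, h2⟩ := Submodule.mem_inf.1 hx
    refine Submodule.mem_inf.2 ⟨Submodule.sub_mem _ (frob_mem hR m k r x h1) h1, ?_⟩
    rw [LinearMap.mem_ker] at h2 ⊢
    rw [LinearMap.sub_apply, Module.End.one_apply, map_sub, N_frob hR, h2, map_zero, smul_zero,
      sub_zero]
  have hsurj : Function.Surjective ((frob R q k r - 1).restrict hS) := by
    rintro ⟨a, ha⟩
    obtain ⟨h1, h2⟩ := Submodule.mem_inf.1 ha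
    obtain ⟨y, hy, h3, h4⟩ := h a h1 0 (Submodule.zero_mem _) (by
      rw [LinearMap.mem_ker.1 h2, map_zero, smul_zero, sub_zero])
    exact ⟨⟨y, Submodule.mem_inf.2 ⟨hy, LinearMap.mem_ker.2 h4.symm⟩⟩, Subtype.ext h3.symm⟩
  have hinj := LinearMap.injective_iff_surjective.2 hsurj
  have h1 : ((frob R q k r - 1).restrict hS) ⟨x, Submodule.mem_inf.2 ⟨hx, LinearMap.mem_ker.2 hN⟩⟩ =
      0 := by
    apply Subtype.ext
    show frob R q k r x - x = 0
    rw [hF, sub_self]
  exact congrArg Subtype.val (hinj (h1.trans (map_zero _).symm))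

/-- An eigenvector of excess one in the kernel of `N`. -/
lemma exists_exc_one [IsAlgClosed Ω] (hq : 1 < q) (hR : IsPre R q) (h : ¬ G R q 0 1) :
    ∃ m : ℕ, ∃ α : Ω, ∃ y ∈ R.gr m, y ≠ 0 ∧ R.N y = 0 ∧ R.F y = α • y ∧
      IsWeilNumber q ((m : ℤ) + 1) α := by
  classical
  have hind := hR.isInternal.submodule_iSupIndep
  rw [iSupIndep_iff_finsetSum_eq_zero_imp_eq_zero] at hind
  unfold G at h
  push Not at h
  obtain ⟨x, hx, h0, hx0⟩ := h
  rw [zero_add, pow_one] at h0
  obtain ⟨f, hf, hfx⟩ := (Submodule.mem_iSup_iff_exists_finsupp _ _).1 hx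
  have hfx' : ∑ m ∈ f.support, f m = x := hfx
  have h1 : ∀ m ∈ f.support, R.N (f m) = 0 := by
    refine hind f.support _ (fun m _ => hR.N_gr m _ (exc_le m 1 (hf m))) ?_
    rw [← map_sum, hfx', h0]
  have h2 : ∃ m ∈ f.support, f m ≠ 0 := by
    by_contra hcon
    push Not at hcon
    exact hx0 (by rw [← hfx']; exact Finset.sum_eq_zero hcon)
  obtain ⟨m, hm, hm0⟩ := h2
  let S : Submodule Ω R.V := R.exc q m 1 ⊓ LinearMap.ker R.N
  have hS : ∀ y ∈ S, R.F y ∈ S := by
    intro y hy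
    obtain ⟨h3, h4⟩ := Submodule.mem_inf.1 hy
    refine Submodule.mem_inf.2 ⟨F_exc hR m 1 y h3, ?_⟩
    rw [LinearMap.mem_ker]
    have := hR.N_F y
    rw [this, LinearMap.mem_ker.1 h4, map_zero, smul_zero]
  obtain ⟨α, y, hy, hy0, hFy⟩ := exists_eigen hR hS
    ((Submodule.ne_bot_iff _).2 ⟨f m, Submodule.mem_inf.2 ⟨hf m, LinearMap.mem_ker.2 (h1 m hm)⟩, hm0⟩)
  obtain ⟨h3, h4⟩ := Submodule.mem_inf.1 hy
  exact ⟨m, α, y, exc_le m 1 h3, hy0, h4, hFy, eigen_exc hq hR h3 hy0 hFy⟩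

/-- the weights of a variety with potentially good reduction -/
lemma good_weight [IsAlgClosed Ω] (hq : 1 < q) (hR : IsPre R q) (hB : IsGood R q) {j : ℕ} {β : Ω}
    {y : R.V} (hy : y ∈ R.gr j) (hy0 : y ≠ 0) (hF : R.F y = β • y) : IsWeilNumber q j β := by
  obtain ⟨w, hw⟩ := hR.weil j β y hy hy0 hF
  have hc := (mwPure_iff hq hR j).1 (hB.pure j)
  have hN : ∀ (a : ℕ), 0 < a → ∀ x, (R.N ^ a) x = 0 := by
    intro a ha x
    obtain ⟨b, rfl⟩ : ∃ b, a = b + 1 := ⟨a - 1, by omega⟩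
    rw [pow_succ, Module.End.mul_apply, hB.zero, LinearMap.zero_apply, map_zero]
  have h1 : y ∈ R.exc q j (w - j) := by
    refine Submodule.mem_iSup_of_mem β (Submodule.mem_iSup_of_mem ?_ ?_)
    · rwa [show (j : ℤ) + (w - j) = w by ring]
    · exact Submodule.mem_inf.2 ⟨hy, (Module.End.mem_maxGenEigenspace _ _ _).2 ⟨1, by simp [hF]⟩⟩
  rcases lt_trichotomy (w - j) 0 with h2 | h2 | h2
  · exfalso
    obtain ⟨a, ha⟩ : ∃ a : ℕ, w - j = -(a : ℤ) := ⟨(j - w).toNat, by omega⟩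
    rw [ha] at h1
    obtain ⟨x, _, hx⟩ := (hc a).2 y h1
    rw [hN a (by omega)] at hx
    exact hy0 hx.symm
  · rwa [show (w : ℤ) = j by omega] at hw
  · exfalso
    obtain ⟨a, ha⟩ : ∃ a : ℕ, w - j = (a : ℤ) := ⟨(w - j).toNat, by omega⟩
    rw [ha] at h1
    exact hy0 ((hc a).1 y h1 (hN a (by omega) y))

end Pool.Agent.U644.RA
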